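import Pool.Agent.X39.Near.MasterI
import Pool.Agent.Y776.Fam.Main
import Pool.Agent.Y776.Cv.Pad
import Pool.Agent.TH813.EKPer

/-!
# Period points of ALL algebraic fibres close to any point outside a set of dimension zero: families of elliptic curves

Let `E_z : y² = 4 X³ - g₂(z) X - g₃(z)` be any family of elliptic curves over a curve, in local coordinates: `g₂`, `g₃` are
algebraic functions on the connected open set `U` and the `j`-invariant is not constant; let `ω₁(z)`, `ω₂(z)` be the periods
(a basis of the homology, extended analytically). For `H¹` the assertion of Q1 at `z` is that the four entries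
`ω₁, ω₂, η₁, η₂` of the period matrix `P(z)` are algebraically independent over `ℚ̄`; since `ω₁ η₂ - ω₂ η₁ = ± 2 π i` (Legendre)
and `ω₁ ≠ 0`, this means that `ω₁, ω₂, η₁` are algebraically independent over `ℚ(π)`. Outside ONE set of complex numbers `x` of
Hausdorff dimension `0`, for all number fields `F ⊂ ℂ`, all `ω > 0`, `d` and `A` there are `B` and `T₁` such that for all
`T ≥ T₁` and ALL `z ∈ F` of height at most `T` with `|z - x| ≤ T ^ (-ω)` the periods `ω₁, ω₂, η₁` of `E_z` satisfy no relation
of degree at most `d` with coefficients which are polynomials of degree at most `d` in the `a_k(z) / w(z)` and in given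
complex numbers `ξ_i` (for instance `π`, or the periods of any fixed varieties), with coefficients in `F` of height at most
`T ^ A`, not even up to `T ^ (-B)`; with `π` among the `ξ_i` this is Q1 up to this complexity. In particular
this holds at the convergents of all irrational real numbers in `U` outside this set, from some point on. (The fibres with
complex multiplication, the Hodge locus, have relations of bounded complexity, but are rare enough.) The number of
algebraic fibres close to `x` is infinite, and for `ω < 2` there are about `T ^ (m (2 - ω))` of them of height `T` if `F` is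
of degree `m` and totally real.
-/

set_option autoImplicit false

open MeasureTheory NumberField
open Pool.Agent

namespace Pool.Agent.Results.MP_5591bc_ag.ApproximationsOfAllNumbers

open Pool.Agent.X39.Near (Size Dependent)

/-- The Weierstrass zeta function `ζ(z) = ∑ (1/(z-l) + 1/l + z/l²)`, the sum over the lattice (the summand of `l = 0` is
`1/z`, since `1/0 = 0` in Lean). -/
noncomputable def ζ (L : PeriodPair) (z : ℂ) : ℂ :=
  ∑' l : L.lattice, (1 / (z - l) + 1 / l + z / l ^ 2)

/-- The function `f` is algebraic over `ℂ(z)` on the set `U`. -/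
def Algebraic (U : Set ℂ) (f : ℂ → ℂ) : Prop :=
  ∃ P : MvPolynomial (Fin 2) ℂ, P ≠ 0 ∧ ∀ z ∈ U, MvPolynomial.eval ![z, f z] P = 0

/-- A family of elliptic curves `ℂ / Λ_z` with algebraic invariants and nonconstant `j`. -/
structure Family (U : Set ℂ) (Λ : ℂ → PeriodPair) : Prop where
  isOpen : IsOpen U
  isPreconnected : IsPreconnected U
  /-- the lattice depends analytically on `z` -/
  analytic₁ : AnalyticOnNhd ℂ (fun z => (Λ z).ω₁) U
  analytic₂ : AnalyticOnNhd ℂ (fun z => (Λ z).ω₂) U
  /-- the invariants are algebraic functions -/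
  algebraic₂ : Algebraic U (fun z => (Λ z).g₂)
  algebraic₃ : Algebraic U (fun z => (Λ z).g₃)
  /-- `j` is not constant: `g₂³` and `g₃²` are linearly independent -/
  nonconstant : ∀ a b : ℂ, (∀ z ∈ U, a * (Λ z).g₂ ^ 3 = b * (Λ z).g₃ ^ 2) → a = 0 ∧ b = 0

/-- The periods `ω₁, ω₂` and the quasi-period `η₁ = 2 ζ(ω₁ / 2)`. -/
noncomputable def periods (Λ : ℂ → PeriodPair) (i : Fin 3) (z : ℂ) : ℂ :=
  ![(Λ z).ω₁, (Λ z).ω₂, 2 * ζ (Λ z) ((Λ z).ω₁ / 2)] i

/-- the two definitions of `ζ` -/
theorem zeta_eq (L : PeriodPair) (z : ℂ) : H667R3.zeta L z = ζ L z := rfl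

/-- **Theorem.** Let `Λ` be a family on `U`; let `a_k`, `w` be complex polynomials, `w` without zeros on `U`, and
`ξ_1, …, ξ_g` complex numbers. There is a set `E` of complex numbers of Hausdorff dimension `0` such that: (1) for all `x ∈ U` outside `E`, all
number fields `F` with an embedding `ι` in `ℂ`, all `d`, `A` and `ω > 0` there are `B`, `T₁` such that for all
`T ≥ T₁` and all `t ∈ F`, quotients of integers with conjugates at most `T`, with `|ι t - x| ≤ T ^ (-ω)`, the
values of these functions at `t` are not dependent; (2) for all irrational real `x ∈ U` outside `E` and all `d`,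
`A` there is `B` such that the values at the convergents `t` of `x` are not dependent over `ℚ`, at the level of
the denominator, from some point on. -/
theorem result {q g : ℕ} (U : Set ℂ) (Λ : ℂ → PeriodPair) (hΛ : Family U Λ)
    (u : Fin q → Polynomial ℂ) (w : Polynomial ℂ) (hw : ∀ t ∈ U, w.eval t ≠ 0) (ξ : Fin g → ℂ) :
    ∃ E : Set ℂ, dimH E = 0 ∧
      (∀ x ∈ U, x ∉ E → ∀ (F : Type) [Field F] [NumberField F] (ι : F →+* ℂ)
        (d A : ℕ) (ω : ℝ), 0 < ω → ∃ B T₁ : ℝ, ∀ T : ℝ, T₁ ≤ T → ∀ t : F, Size F T t →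
          ‖ι t - x‖ ≤ T ^ (-ω) → ¬ Dependent (periods Λ) u w ξ F ι d A B T t) ∧
      ∀ x : ℝ, Irrational x → (x : ℂ) ∈ U → (x : ℂ) ∉ E → ∀ d A : ℕ, ∃ (B : ℝ) (n₀ : ℕ), ∀ k : ℕ,
        n₀ ≤ k → ¬ Dependent (periods Λ) u w ξ ℚ (algebraMap ℚ ℂ) d A B (x.convergent k).den
          (x.convergent k) := by
  classical
  have hF : Y776.Fam.Fm (r := 0) (s := 0) (q := 0) U Λ (fun k => k.elim0) (fun k => k.elim0)
      (fun k => k.elim0) (fun k => k.elim0) :=
    { isOpen := hΛ.isOpen, conn := hΛ.isPreconnected, an₁ := hΛ.analytic₁, an₂ := hΛ.analytic₂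
      ni := hΛ.nonconstant, ag2 := hΛ.algebraic₂, ag3 := hΛ.algebraic₃, ua := fun k => k.elim0
      un := fun k => k.elim0, uw := fun k => k.elim0, ui := fun _ _ => Subsingleton.elim _ _, la := fun k => k.elim0
      le := fun k => k.elim0, li := fun _ _ _ => Subsingleton.elim _ _
      Sa := fun k => k.elim0, Se := fun k => k.elim0, Ni := fun _ _ => Subsingleton.elim _ _ }
  have hval : ∀ (i : Fin 3) (z : ℂ), Y776.Fam.yfam (r := 0) (s := 0) (q := 0) Λ (fun k => k.elim0)
      (fun k => k.elim0) (fun k => k.elim0) (Sum.inl i) z = periods Λ i z := by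
    intro i z
    fin_cases i
    · rfl
    · rfl
    · show H667R3.eta (Λ z) (Λ z).ω₁ = 2 * ζ (Λ z) ((Λ z).ω₁ / 2)
      rw [TH813.Ell.eta_half (Λ z).ω₁_mem_lattice (TH813.Ell.half₁ (Λ z)), zeta_eq]
  have hfun : ∀ i : Fin 3, periods Λ i = Y776.Fam.yfam (r := 0) (s := 0) (q := 0) Λ (fun k => k.elim0)
      (fun k => k.elim0) (fun k => k.elim0) (Sum.inl i) := fun i => funext fun z => (hval i z).symm
  have hpp : periods Λ = fun i => Y776.Fam.yfam (r := 0) (s := 0) (q := 0) Λ (fun k => k.elim0)
      (fun k => k.elim0) (fun k => k.elim0) (Sum.inl i) := funext hfun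
  rw [hpp]
  exact Pool.Agent.X39.Near.master U hΛ.isOpen _ (fun i t ht => Y776.Fam.yfam_an hF (Sum.inl i) t ht)
    (fun t ht => Y776.Cv.LocInd.comp_inj (Y776.Fam.fam_locInd hF ht) Sum.inl_injective) u w hw ξ

end Pool.Agent.Results.MP_5591bc_ag.ApproximationsOfAllNumbers
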