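import Pool.Agent.X120.GS.Cst
import Pool.Agent.X120.GS.All
import Pool.Agent.Y123.ST.Out

/-!
# The closure of the period point of the fibres over `b^(-n)`, relative to arbitrary constants

Let `h_i`, `1 ≤ i ≤ k`, be families of G-functions over `ℚ` (with the conditions of Siegel and Galochkin, regular singular with
rational exponents at `∞`) and let `P_i(x)` be finite families of polynomials with arbitrary complex coefficients in the
`h_{i,l}(x)`. In the situation of the problem (`S` an open part of the line over `ℚ` which contains `0`) the entries of the period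
matrix are of this kind, since `P(x) = Ω Z(x)` near `0`, where `Ω` is the period matrix of the fibre `X_0` and `Z` is the
fundamental matrix of the Gauss-Manin system with `Z(0) = 1`. For `k > 1` we consider products of `k` such families, over
`S_1 × … × S_k`. The problem is about the `ℚ̄`-closure of the point `P(s)`, `s ∈ S(ℚ̄)`. Here we consider, more generally, the
closure of `(P(s), ξ)` where `ξ = (ξ_1, …, ξ_m)` is any point of `ℂ^m`, for example the periods of a fixed variety or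
mixed motive, or the coefficients of `Ω`; so the result concerns the periods of `X_s` and this fixed object together.

**Theorem.** Let `δ`, `D`, `m` be natural numbers and let `b_i ≥ 2` be integers. There is `C`, depending only on `δ`, `D`, `m`, the
`h_i`, the `b_i`, `k`, the numbers and the degrees of the `P_i` as polynomials, such that for every `ξ ∈ ℂ^m` and every
number field `K` of degree at most `D` the following holds at `s = (b_1^(-n_1), …, b_k^(-n_k))` for all but `C T^(k-1) log T` of the tuples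
`(n_1, …, n_k)` in `[1, T]^k` (in particular for all but `C log T` of the first `T` fibres over `b^(-n)` if `k = 1`):

1. For every relation `F(P(s), ξ) = 0` over `K` of degree at most `δ` the polynomial `F(Y, ξ)` is the specialisation at
   `x = s` of a relation `R(x, P(x)) = 0` over `ℂ[x]`, of degree at most `δ` in the periods.
2. All polynomials `F(Y, U)` over `K` of degree at most `δ` which vanish on the `ℚ̄`-closure of `(P(s), ξ)` vanish on
   `B'_s × {ξ}`, where `B'_s` is the fibre over `s` of the Zariski closure over `ℂ` of the graph of `P`. (If `0` is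
   a base point and `P(x) = Ω Z(x)`, the variety `B'_s` is the orbit `M · P(s)` of the Zariski closure `M` of the monodromy
   group, for a suitable shrinking of `S`; so `B'_s × {ξ}` is what the period conjecture predicts, relative to `ξ`.)
3. If the functions `P_{i,v}(x_i)` satisfy no nonzero relation over `ℂ[x]`, then `F(Y, ξ) = 0` as a polynomial in `Y` for all
   `F` over `K` of degree at most `δ` with `F(P(s), ξ) = 0`; and `F = 0` if moreover the `ξ_j` are algebraically independent over `ℚ`.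
   So the numbers `P(s)` are algebraically independent over `K(ξ)`, up to degree `δ`.

Moreover there are `m(T) → ∞` and `ε(T) → 0` such that this holds with `δ`, `D` and the number of the `ξ_j` replaced by `m(T)`, for all but
`ε(T) T^k` of the tuples in `[1, T]^k`.

The library and the literature have theorems of this kind about all integers or all points of bounded height, with at least
`H^c` or `H^(o(1))` exceptions of height at most `H`. As there are only `O(log H)` numbers `b^(-n)` of height at most `H`, these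
theorems say nothing about the fibres over the `b^(-n)`. Part 1 for `m = 0` with `R` over `K[x]` is
MP_290158_ag.GeometricSequences; that theorem and this one do not imply each other, because here constants occur and `R` is over `ℂ[x]`.

Proof: the counting theorem of `Pool.Agent.X120.GS` (windows, multiplicative translates, singularities of the translates on
disjoint circles, Siegel's lemma and the determinant method with coefficients in the `ℚ`-space `V` spanned by the products of elements of `K` with the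
monomials in `ξ` of degree at most `δ`), and linear algebra over `ℂ[x]`.
-/

set_option autoImplicit false

open PowerSeries Filter

namespace Pool.Agent.Results.MP_5591bc_ag.GeometricSequencesWithConstants

/-- an integer polynomial as a power series with rational coefficients -/
noncomputable def toQ (P : Polynomial ℤ) : PowerSeries ℚ := ((P.map (Int.castRingHom ℚ) : Polynomial ℚ) : PowerSeries ℚ)

/-- the power series `P(u^e)` -/
noncomputable def atPow (e : ℕ) (P : Polynomial ℤ) : PowerSeries ℂ :=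
  ((Polynomial.expand ℂ e (P.map (Int.castRingHom ℂ)) : Polynomial ℂ) : PowerSeries ℂ)

/-- the matrices `G_s` over `ℤ[x]` with `T^s y^(s) = G_s y` for all solutions `y` of `T y' = A y` -/
noncomputable def iter {r : ℕ} (T : Polynomial ℤ) (A : Fin r → Fin r → Polynomial ℤ) : ℕ → Fin r → Fin r → Polynomial ℤ
  | 0 => fun i j => if i = j then 1 else 0
  | s + 1 => fun i j => T * Polynomial.derivative (iter T A s i j) + ∑ l, iter T A s i l * A l j -
      (s : Polynomial ℤ) * (Polynomial.derivative T * iter T A s i j)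

/-- The system `T y' = A y` has a fundamental matrix of solutions of the form `u^(-M) ∑_n Φ_n(u) (log u)^n` with
`u^e = x` and convergent power series `Φ_n`: the point `0` is regular or a regular singularity with rational
exponents. -/
def QuasiUnipotent {r : ℕ} (T : Polynomial ℤ) (A : Fin r → Fin r → Polynomial ℤ) : Prop :=
  ∃ (e M : ℕ) (K : ℝ) (Φ : Matrix (Fin r) (Fin r) (Polynomial (PowerSeries ℂ))), 1 ≤ e ∧ Φ.det ≠ 0 ∧
    (∀ i j n m, ‖coeff m ((Φ i j).coeff n)‖ ≤ K ^ (m + 1)) ∧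
    ∀ i j n, atPow e T * (X * PowerSeries.derivative ℂ ((Φ i j).coeff n) +
        ((n : PowerSeries ℂ) + 1) * (Φ i j).coeff (n + 1) - (M : PowerSeries ℂ) * (Φ i j).coeff n) =
      (e : PowerSeries ℂ) * X ^ e * ∑ l, atPow e (A i l) * (Φ l j).coeff n

/-- `h_1, ..., h_r` are G-functions with rational coefficients which solve the differential system `T y' = A y`, with
the conditions of Siegel and Galochkin, and `∞` is a regular point or a regular singularity with rational exponents of the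
system: for `z = 1 / x` the system is `z² T^(z) dy/dz = - A^(z) y` where `T^(z) = z^d T(1/z)` and `A^(z) = z^d A(1/z)` are
the reflected polynomials. -/
structure GFamily {r : ℕ} (T : Polynomial ℤ) (A : Fin r → Fin r → Polynomial ℤ) (h : Fin r → PowerSeries ℚ) : Prop where
  /-- the denominator is not zero -/
  T_ne : T ≠ 0
  /-- the differential equations -/
  ode : ∀ i, toQ T * PowerSeries.derivative ℚ (h i) = ∑ j, toQ (A i j) * h j
  /-- the coefficients have geometric growth -/
  size : ∃ C : ℝ, ∀ i m, |((coeff m (h i) : ℚ) : ℝ)| ≤ C ^ (m + 1)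
  /-- the common denominators of the coefficients have geometric growth -/
  den : ∃ C : ℝ, ∀ m : ℕ, ∃ d : ℕ, 0 < d ∧ (d : ℝ) ≤ C ^ (m + 1) ∧ ∀ i, ∀ j ≤ m, ∃ a : ℤ, (d : ℚ) * coeff j (h i) = a
  /-- Galochkin's condition: the common denominators of the matrices `G_s / s!` have geometric growth -/
  galochkin : ∃ C : ℝ, ∀ m : ℕ, ∃ d : ℕ, 0 < d ∧ (d : ℝ) ≤ C ^ (m + 1) ∧ ∀ s ≤ m, ∀ i j,
    ∃ H : Polynomial ℤ, (d : Polynomial ℤ) * iter T A s i j = (s.factorial : Polynomial ℤ) * H
  /-- the local exponents at `∞` are rational and the singularity is regular -/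
  regular_infty : ∃ d : ℕ, T.natDegree ≤ d ∧ (∀ i j, (A i j).natDegree ≤ d) ∧
    QuasiUnipotent (Polynomial.X ^ 2 * T.reflect d) (fun i j => - (A i j).reflect d)

theorem iter_eq {r : ℕ} (T : Polynomial ℤ) (A : Fin r → Fin r → Polynomial ℤ) (s : ℕ) :
    iter T A s = Pool.Agent.Y120.GH.itm T A s := by
  induction s with
  | zero => rfl
  | succ s ih =>
    funext i j
    rw [iter, Pool.Agent.Y120.GH.itm, ih]

theorem qu_eq {r : ℕ} {T : Polynomial ℤ} {A : Fin r → Fin r → Polynomial ℤ} (h : QuasiUnipotent T A) :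
    Pool.Agent.Y120.GH.QU0 T A := by
  obtain ⟨e, M, K, Φ, he, hdet, hc, heq⟩ := h
  have he0 : e ≠ 0 := by omega
  refine ⟨e, he0, M, K, Φ, hc, fun i j n => ?_, hdet⟩
  have h1 := heq i j n
  simp only [atPow] at h1
  rw [Pool.Agent.Y120.GH.expand_poly he0]
  simp only [Pool.Agent.Y120.GH.expand_poly he0]
  exact h1

theorem fam {r : ℕ} {T : Polynomial ℤ} {A : Fin r → Fin r → Polynomial ℤ} {h : Fin r → PowerSeries ℚ}
    (hG : GFamily T A h) {b : ℕ} (hb : 2 ≤ b) (δ : ℕ) : Pool.Agent.X120.GS.FamG δ h b := by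
  obtain ⟨d, hTd, hAd, hqu⟩ := hG.regular_infty
  obtain ⟨B, a, M, h1, h2, h3⟩ := Pool.Agent.X120.GS.family_mainS hG.T_ne hG.ode hG.size hG.den (by
    obtain ⟨C, hC⟩ := hG.galochkin
    refine ⟨C, fun m => ?_⟩
    obtain ⟨d, h1, h2, h3⟩ := hC m
    refine ⟨d, h1, h2, fun s hs i' j' => ?_⟩
    rw [← iter_eq]
    exact h3 s hs i' j') hTd hAd (qu_eq hqu) δ
  exact ⟨hG.size, B, a, M, h1, h2, h3 b hb⟩

section
variable {k m : ℕ} {ρ : Fin k → ℕ} {ν : Fin k → Type}

/-- The periods at `x = (x_1, …, x_k)`: the polynomials `P i v`, `v ∈ ν i`, in the `h_{i,l}(x_i)`. -/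
noncomputable def periods (h : ∀ i, Fin (ρ i) → PowerSeries ℚ) (P : ∀ i, ν i → MvPolynomial (Fin (ρ i)) ℂ) (x : Fin k → ℝ)
    (v : Σ i, ν i) : ℂ :=
  MvPolynomial.aeval (fun l => ((∑' m : ℕ, ((coeff m (h v.1 l) : ℚ) : ℝ) * x v.1 ^ m : ℝ) : ℂ)) (P v.1 v.2)

/-- The polynomial `G` over `ℂ` vanishes on the graph of the period map (over the `x` with `0 < x_i < ε`). -/
def OnGraph (h : ∀ i, Fin (ρ i) → PowerSeries ℚ) (P : ∀ i, ν i → MvPolynomial (Fin (ρ i)) ℂ)
    (G : MvPolynomial (Fin k ⊕ Σ i, ν i) ℂ) : Prop :=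
  ∃ ε : ℝ, 0 < ε ∧ ∀ x : Fin k → ℝ, (∀ i, 0 < x i ∧ x i < ε) →
    MvPolynomial.aeval (Sum.elim (fun i => (x i : ℂ)) (periods h P x)) G = 0

/-- The Zariski closure over `ℂ` of the graph of the period map. -/
def graphClosure (h : ∀ i, Fin (ρ i) → PowerSeries ℚ) (P : ∀ i, ν i → MvPolynomial (Fin (ρ i)) ℂ) :
    Set ((Fin k → ℂ) × ((Σ i, ν i) → ℂ)) :=
  {p | ∀ G : MvPolynomial (Fin k ⊕ Σ i, ν i) ℂ, OnGraph h P G → MvPolynomial.aeval (Sum.elim p.1 p.2) G = 0}

/-- The `ℚ̄`-Zariski closure of a point. -/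
def pointClosure {ι : Type} (w : ι → ℂ) : Set (ι → ℂ) :=
  {Y | ∀ G : MvPolynomial ι (algebraicClosure ℚ ℂ), MvPolynomial.aeval w G = 0 → MvPolynomial.aeval Y G = 0}

/-- The conclusion at the point `s = (b_1^(-t_1), …, b_k^(-t_k))`. -/
def Good (K : Subfield ℂ) (δ : ℕ) (ξ : Fin m → ℂ) (h : ∀ i, Fin (ρ i) → PowerSeries ℚ)
    (P : ∀ i, ν i → MvPolynomial (Fin (ρ i)) ℂ) (b t : Fin k → ℕ) : Prop :=
  -- 1: the relations `F(Y, ξ)` are specialisations of relations over `ℂ[x]`
  (∀ F : MvPolynomial ((Σ i, ν i) ⊕ Fin m) K, F.totalDegree ≤ δ →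
    MvPolynomial.aeval (Sum.elim (periods h P fun i => 1 / (b i : ℝ) ^ t i) ξ) F = 0 →
    ∃ R : MvPolynomial (Σ i, ν i) (MvPolynomial (Fin k) ℂ), R.totalDegree ≤ δ ∧
      MvPolynomial.map (MvPolynomial.eval fun i => 1 / (b i : ℂ) ^ t i) R =
        MvPolynomial.aeval (Sum.elim MvPolynomial.X fun j => MvPolynomial.C (ξ j)) F ∧
      ∃ ε : ℝ, 0 < ε ∧ ∀ x : Fin k → ℝ, (∀ i, 0 < x i ∧ x i < ε) →
        MvPolynomial.eval₂ (MvPolynomial.eval₂Hom (RingHom.id ℂ) fun i => (x i : ℂ)) (periods h P x) R = 0) ∧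
  -- 2: closures
  (∀ F : MvPolynomial ((Σ i, ν i) ⊕ Fin m) K, F.totalDegree ≤ δ →
    (∀ w ∈ pointClosure (Sum.elim (periods h P fun i => 1 / (b i : ℝ) ^ t i) ξ), MvPolynomial.aeval w F = 0) →
    ∀ Y : (Σ i, ν i) → ℂ, ((fun i => 1 / (b i : ℂ) ^ t i), Y) ∈ graphClosure h P → MvPolynomial.aeval (Sum.elim Y ξ) F = 0) ∧
  -- 3: algebraic independence
  ((∀ G : MvPolynomial (Fin k ⊕ Σ i, ν i) ℂ, OnGraph h P G → G = 0) →
    ∀ F : MvPolynomial ((Σ i, ν i) ⊕ Fin m) K, F.totalDegree ≤ δ →
    MvPolynomial.aeval (Sum.elim (periods h P fun i => 1 / (b i : ℝ) ^ t i) ξ) F = 0 →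
    MvPolynomial.aeval (Sum.elim (MvPolynomial.X (R := ℂ)) fun j => MvPolynomial.C (ξ j)) F = 0 ∧
      (AlgebraicIndependent ℚ ξ → F = 0))

theorem periods_eq (h : ∀ i, Fin (ρ i) → PowerSeries ℚ) (P : ∀ i, ν i → MvPolynomial (Fin (ρ i)) ℂ) (s : Fin k → ℝ) :
    Pool.Agent.Y120.R.pn h (Pool.Agent.X120.GS.so P) s = periods h P fun i => 1 / s i := by
  funext v
  show MvPolynomial.aeval (Pool.Agent.Y120.R.p1 (h v.1) (s v.1)) (MvPolynomial.rename some (P v.1 v.2)) = _
  rw [MvPolynomial.aeval_rename]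
  rfl

/-- a relation over `ℂ[x]` as a polynomial in all variables -/
noncomputable def flat (R : MvPolynomial (Σ i, ν i) (MvPolynomial (Fin k) ℂ)) : MvPolynomial (Fin k ⊕ Σ i, ν i) ℂ :=
  MvPolynomial.eval₂ (MvPolynomial.eval₂Hom MvPolynomial.C fun i => MvPolynomial.X (Sum.inl i))
    (fun v => MvPolynomial.X (Sum.inr v)) R

theorem flat_eval (R : MvPolynomial (Σ i, ν i) (MvPolynomial (Fin k) ℂ)) (x : Fin k → ℂ) (Y : (Σ i, ν i) → ℂ) :
    MvPolynomial.aeval (Sum.elim x Y) (flat R) = MvPolynomial.eval₂ (MvPolynomial.eval₂Hom (RingHom.id ℂ) x) Y R := by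
  let Ψ : MvPolynomial (Σ i, ν i) (MvPolynomial (Fin k) ℂ) →+* MvPolynomial (Fin k ⊕ Σ i, ν i) ℂ :=
    MvPolynomial.eval₂Hom (MvPolynomial.eval₂Hom MvPolynomial.C fun i => MvPolynomial.X (Sum.inl i))
      fun v => MvPolynomial.X (Sum.inr v)
  have h2 : ((MvPolynomial.aeval (Sum.elim x Y) : MvPolynomial (Fin k ⊕ Σ i, ν i) ℂ →ₐ[ℂ] ℂ) : _ →+* ℂ).comp Ψ =
      MvPolynomial.eval₂Hom (MvPolynomial.eval₂Hom (RingHom.id ℂ) x) Y := by
    refine MvPolynomial.ringHom_ext' (MvPolynomial.ringHom_ext' ?_ ?_) ?_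
    · ext a
      simp [Ψ]
    · intro i
      simp [Ψ]
    · intro v
      simp [Ψ]
  exact RingHom.congr_fun h2 R

theorem map_eval (R : MvPolynomial (Σ i, ν i) (MvPolynomial (Fin k) ℂ)) (x : Fin k → ℂ) (Y : (Σ i, ν i) → ℂ) :
    MvPolynomial.eval Y (MvPolynomial.map (MvPolynomial.eval x) R) =
      MvPolynomial.eval₂ (MvPolynomial.eval₂Hom (RingHom.id ℂ) x) Y R := by
  rw [MvPolynomial.eval_map]
  rfl

/-- an algebraically independent family over `ℚ` is algebraically independent over algebraic extensions -/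
theorem indep_up {K : Subfield ℂ} (hK : FiniteDimensional ℚ K) {ξ : Fin m → ℂ} (hξ : AlgebraicIndependent ℚ ξ) :
    AlgebraicIndependent K ξ := by
  have : Algebra.IsAlgebraic ℚ K := Algebra.IsAlgebraic.of_finite ℚ K
  exact hξ.extendScalars K

/-- the second and the third part follow from the first -/
theorem good_of [∀ i, Fintype (ν i)] {K : Subfield ℂ} (hK : FiniteDimensional ℚ K) {δ : ℕ} {ξ : Fin m → ℂ}
    {h : ∀ i, Fin (ρ i) → PowerSeries ℚ} {P : ∀ i, ν i → MvPolynomial (Fin (ρ i)) ℂ} {b t : Fin k → ℕ}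
    (h1 : ∀ F : MvPolynomial ((Σ i, ν i) ⊕ Fin m) K, F.totalDegree ≤ δ →
      MvPolynomial.aeval (Sum.elim (periods h P fun i => 1 / (b i : ℝ) ^ t i) ξ) F = 0 →
      ∃ R : MvPolynomial (Σ i, ν i) (MvPolynomial (Fin k) ℂ), R.totalDegree ≤ δ ∧
        MvPolynomial.map (MvPolynomial.eval fun i => 1 / (b i : ℂ) ^ t i) R =
          MvPolynomial.aeval (Sum.elim MvPolynomial.X fun j => MvPolynomial.C (ξ j)) F ∧
        ∃ ε : ℝ, 0 < ε ∧ ∀ x : Fin k → ℝ, (∀ i, 0 < x i ∧ x i < ε) →
          MvPolynomial.eval₂ (MvPolynomial.eval₂Hom (RingHom.id ℂ) fun i => (x i : ℂ)) (periods h P x) R = 0) :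
    Good K δ ξ h P b t := by
  refine ⟨h1, ?_, ?_⟩
  · intro F hFd hFZ Y hY
    obtain ⟨R, hRd, hRF, ε, hε, hR⟩ := h1 F hFd (hFZ _ fun G hG => hG)
    have h3 := hY (flat R) ⟨ε, hε, fun x hx => by
      rw [flat_eval]
      exact hR x hx⟩
    rw [flat_eval, ← map_eval, hRF] at h3
    rw [← Pool.Agent.X120.GS.subst_eval]
    exact h3
  · intro hind F hFd hF0
    obtain ⟨R, hRd, hRF, ε, hε, hR⟩ := h1 F hFd hF0
    have h3 : flat R = 0 := hind _ ⟨ε, hε, fun x hx => by
      rw [flat_eval]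
      exact hR x hx⟩
    have h4 : MvPolynomial.aeval (Sum.elim (MvPolynomial.X (R := ℂ)) fun j => MvPolynomial.C (ξ j)) F =
        (0 : MvPolynomial (Σ i, ν i) ℂ) := by
      rw [← hRF]
      refine MvPolynomial.funext fun Y => ?_
      rw [map_eval, ← flat_eval, h3]
      simp
    refine ⟨h4, fun hξ => ?_⟩
    have hξK := indep_up hK hξ
    -- `F(Y, ξ) = 0` as a polynomial in `Y`
    have h5 : Function.Injective (MvPolynomial.map (σ := Σ i, ν i)
        ((MvPolynomial.aeval ξ : MvPolynomial (Fin m) K →ₐ[K] ℂ) : MvPolynomial (Fin m) K →+* ℂ)) :=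
      MvPolynomial.map_injective _ hξK
    have h6 : MvPolynomial.map (σ := Σ i, ν i) ((MvPolynomial.aeval ξ : MvPolynomial (Fin m) K →ₐ[K] ℂ) :
        MvPolynomial (Fin m) K →+* ℂ) (MvPolynomial.sumAlgEquiv K (Σ i, ν i) (Fin m) F) = 0 := by
      rw [← h4]
      have h7 : ((MvPolynomial.map (σ := Σ i, ν i) ((MvPolynomial.aeval ξ : MvPolynomial (Fin m) K →ₐ[K] ℂ) :
          MvPolynomial (Fin m) K →+* ℂ)).comp
          (MvPolynomial.sumAlgEquiv K (Σ i, ν i) (Fin m)).toAlgHom.toRingHom) =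
          (MvPolynomial.aeval (Sum.elim (MvPolynomial.X (R := ℂ)) fun j => MvPolynomial.C (ξ j)) :
            MvPolynomial ((Σ i, ν i) ⊕ Fin m) K →ₐ[K] MvPolynomial (Σ i, ν i) ℂ).toRingHom := by
        refine MvPolynomial.ringHom_ext' ?_ ?_
        · ext a
          simp
        · rintro (v | j)
          · simp
          · simp
      exact RingHom.congr_fun h7 F
    have h8 := h5 (h6.trans (map_zero _).symm)
    exact (map_eq_zero_iff _ (MvPolynomial.sumAlgEquiv K (Σ i, ν i) (Fin m)).injective).1 h8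

end

/-- **The theorem.** `P i` is the period matrix (its entries are numbered by `ν i`) of the `i`-th family, `b i ≥ 2`. -/
theorem result (k e : ℕ) (ρ : Fin k → ℕ) (ν : Fin k → Type) [∀ i, Fintype (ν i)] (T : Fin k → Polynomial ℤ)
    (A : ∀ i, Fin (ρ i) → Fin (ρ i) → Polynomial ℤ) (h : ∀ i, Fin (ρ i) → PowerSeries ℚ)
    (hG : ∀ i, GFamily (T i) (A i) (h i)) (b : Fin k → ℕ) (hb : ∀ i, 2 ≤ b i) :
    -- relations of degree at most `δ`, number fields of degree at most `D`, `m` constants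
    (∀ δ D m : ℕ, ∃ C : ℝ, 0 ≤ C ∧ ∀ P : ∀ i, ν i → MvPolynomial (Fin (ρ i)) ℂ, (∀ i v, (P i v).totalDegree ≤ e) →
      ∀ (ξ : Fin m → ℂ) (K : Subfield ℂ), FiniteDimensional ℚ K → Module.finrank ℚ K ≤ D → ∀ N : ℕ, 2 ≤ N →
      (({t : Fin k → ℕ | (∀ i, 1 ≤ t i ∧ t i ≤ N) ∧ ¬ Good K δ ξ h P b t}.ncard : ℕ) : ℝ) * N ≤
        C * (N : ℝ) ^ k * Real.log N) ∧
    -- all these numbers replaced by `M N`, which tends to infinity
    (∃ (M : ℕ → ℕ) (ε : ℕ → ℝ), Tendsto M atTop atTop ∧ Tendsto ε atTop (nhds 0) ∧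
      ∀ P : ∀ i, ν i → MvPolynomial (Fin (ρ i)) ℂ, (∀ i v, (P i v).totalDegree ≤ e) → ∀ N : ℕ, 2 ≤ N →
      ∀ (ξ : Fin (M N) → ℂ) (K : Subfield ℂ), FiniteDimensional ℚ K → Module.finrank ℚ K ≤ M N →
      (({t : Fin k → ℕ | (∀ i, 1 ≤ t i ∧ t i ≤ N) ∧ ¬ Good K (M N) ξ h P b t}.ncard : ℕ) : ℝ) ≤ ε N * (N : ℝ) ^ k) := by
  classical
  have hmain : ∀ δ D m : ℕ, ∃ C : ℝ, 0 ≤ C ∧ ∀ P : ∀ i, ν i → MvPolynomial (Fin (ρ i)) ℂ,
      (∀ i v, (P i v).totalDegree ≤ e) →
      ∀ (ξ : Fin m → ℂ) (K : Subfield ℂ), FiniteDimensional ℚ K → Module.finrank ℚ K ≤ D → ∀ N : ℕ, 2 ≤ N →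
      (({t : Fin k → ℕ | (∀ i, 1 ≤ t i ∧ t i ≤ N) ∧ ¬ Good K δ ξ h P b t}.ncard : ℕ) : ℝ) * N ≤
        C * (N : ℝ) ^ k * Real.log N := by
    intro δ D m
    obtain ⟨C, hC, hmain⟩ := Pool.Agent.X120.GS.relXS' (h := h) (ν := ν) δ e ((δ + 1) ^ Fintype.card (Fin m) * D) hb
      fun i => fam (hG i) (hb i) (δ * e)
    refine ⟨C, hC, ?_⟩
    intro P hP ξ K hK hKD N hN
    set E := {t : Fin k → ℕ | (∀ i, 1 ≤ t i ∧ t i ≤ N) ∧ ¬ Good K δ ξ h P b t} with hE
    have hfin : E.Finite := by
      refine (Set.finite_Iic (fun _ : Fin k => N)).subset ?_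
      intro t ht i
      exact (ht.1 i).2
    rw [Set.ncard_eq_toFinset_card E hfin]
    refine hmain P hP (LinearMap.range (Pool.Agent.X120.GS.lm K ξ δ)) (Pool.Agent.X120.GS.lm_rank ξ δ hKD) N hN _ fun t ht => ?_
    have ht' : t ∈ E := hfin.mem_toFinset.1 ht
    refine ⟨ht'.1, ?_⟩
    by_contra hno
    refine ht'.2 (good_of hK ?_)
    have htp : ∀ i, ((Pool.Agent.X120.GS.tp b t i : ℕ) : ℝ) = (b i : ℝ) ^ t i := by
      intro i
      unfold Pool.Agent.X120.GS.tp
      push_cast
      rfl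
    have htpC : ∀ i, ((Pool.Agent.X120.GS.tp b t i : ℕ) : ℂ) = (b i : ℂ) ^ t i := by
      intro i
      unfold Pool.Agent.X120.GS.tp
      push_cast
      rfl
    intro F hFd hF0
    by_contra hne
    refine hno ⟨Pool.Agent.X120.GS.subst ξ F, Pool.Agent.X120.GS.subst_deg ξ hFd, Pool.Agent.X120.GS.subst_mem ξ hFd, ?_, ?_⟩
    · rw [periods_eq, Pool.Agent.X120.GS.subst_eval]
      simp only [htp]
      exact hF0
    · rintro ⟨R, hRd, ⟨τ, hRτ⟩, hRF⟩
      refine hne ⟨R, hRd, ?_, 1 / (|τ| + 1), by positivity, ?_⟩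
      · refine Eq.trans ?_ hRF
        simp only [htpC]
      · intro x hx
        have h5 : ∀ i, τ < 1 / x i := by
          intro i
          have h6 : |τ| + 1 < 1 / x i := by
            rw [lt_one_div (by positivity) (hx i).1]
            exact (hx i).2
          have := le_abs_self τ
          linarith
        have h7 := hRτ (fun i => 1 / x i) h5
        rw [periods_eq] at h7
        simpa only [one_div, inv_inv, Complex.ofReal_inv] using h7
  refine ⟨hmain, ?_⟩
  choose C hC hcount using hmain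
  obtain ⟨D, hD, hδ⟩ := Pool.Agent.Y123.GN.diag_seq (fun D N => C D D D * (Real.log N / N)) (by
      intro D
      have h1 : Tendsto (fun N : ℕ => Real.log N / N) atTop (nhds 0) :=
        (Real.isLittleO_log_id_atTop.tendsto_div_nhds_zero).comp tendsto_natCast_atTop_atTop
      have h5 := h1.const_mul (C D D D)
      rw [mul_zero] at h5
      exact h5)
  refine ⟨D, _, hD, hδ, ?_⟩
  intro P hP N hN ξ K hK hKD
  have h1 := hcount (D N) (D N) (D N) P hP ξ K hK hKD N hN
  have hN0 : (0 : ℝ) < N := by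
    have : 0 < N := by omega
    exact_mod_cast this
  rw [← le_div_iff₀ hN0] at h1
  refine h1.trans (le_of_eq ?_)
  ring

end Pool.Agent.Results.MP_5591bc_ag.GeometricSequencesWithConstants
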