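import Pool.Agent.X120.GS.Hyv

/-!
# Periods of hypergeometric families at the points `b^(-n)` and arbitrary constants

Let `β_(i,1), …, β_(i,m_i)` be rational numbers which are not integers and `θ = z d/dz`. The hypergeometric operator
`θ^(2 m_i) - z ∏_j (θ - β_(i,j)) (θ + β_(i,j))` has maximally unipotent monodromy at `z = 0`. For `m_i = 1` its solutions are periods of families
of elliptic curves, for `m_i = 2` it is contiguous to the operators of the families of Calabi-Yau threefolds like the mirror quintic. The period matrix of the fibre at `z` is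
`W_i = (Y_i(z) Ω_i)ᵀ` (rows: Betti side, columns: de Rham side), where `Y_i(z)` is the matrix of the `(θ^a f_b)(z)`, `f_b` the Frobenius basis (with the powers
of `log z`), and `Ω_i` is an invertible matrix of constants, the periods of the limit motive; we allow all complex matrices `Ω_i`. They satisfy `W_i J_i W_iᵀ = Ω_iᵀ J_i Ω_i`. Let `b_i ≥ 2` be integers.

**Theorem.** Given `D`, `δ` and `m`, for all but `C N^(k-1) log N` of the tuples `(t_1, …, t_k)` in `[1, N]^k` (for `k = 1` for all but `C log N` of the first `N` fibres over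
`b^(-t)`), where `C` depends only on the `β_i`, the `b_i`, `D`, `δ` and `m`:

1. Let `V ⊂ ℂ` be any `ℚ`-vector space of dimension at most `D` and `Ω_i` any constants. Then every polynomial `F` of degree at most `δ` with coefficients in `V` with `F(W) = 0` satisfies `F(X) = 0` for all `X`
with `X_i J_i X_iᵀ = Ω_iᵀ J_i Ω_i`.
2. Let `ξ ∈ ℂ^m` be any constants. Then for all number fields `K` of degree at most `D` at once, every polynomial `F` of degree at most `δ` over `K` with `F(W, ξ) = 0` satisfies `F(X, ξ) = 0` for all these `X`.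

For example `V` or `ξ` can consist of periods of other varieties, logarithms of algebraic numbers (`log b_i`), values of the exponential function, or of numbers about which nothing is known. So in the sense of
relations of bounded degree the periods of the fibres over `(b_1^(-t_1), …, b_k^(-t_k))` are for almost all `t` a generic point of `B_(P,s)` even relative to all given constants. There are
also `M(N) → ∞` and `ε(N) → 0` such that for all but `ε(N) N^k` tuples in `[1, N]^k` this holds for all degrees, dimensions and numbers of constants up to `M(N)`.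

Known results for these families are about `z = 1 / s` for almost all integers `s` (`MP_290158_ag.HypergeometricAlgebraicPoints` for algebraic points of bounded height); the exceptional sets
could contain all powers of `b`. `MP_5591bc_ag.GeometricSequencesWithConstants` is for families with a good fibre over `0`, for single
number fields, and it assumes that the singularity at infinity is regular with rational exponents; for hypergeometric families this is proved here.

Proof. The local system of the entries of the period matrix (without the logarithms) has a regular singularity with rational exponents at `z = ∞`: we prove the theorem of Frobenius and Fuchs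
for systems `z y' = B(z) y` such that all eigenvalues of `B(0)` are rational (`Pool.Agent.X120.GS.Frb`). So the
counting theorem on geometric sequences (`Pool.Agent.X120.GS`) can be applied to the relations with coefficients in spaces of bounded dimension, for which `log z_i = - t_i log b_i` is a constant up to a rational factor. The
relations between the functions (helper119, `Pool.Agent.Y119.HY`) are those of the symplectic forms. For all fields at once consider the relations over `ℚ` of degree `≤ δ D^D` on a curve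
in the group: one conjugate of `F` over `ℚ` vanishes on the curve, and the Galois group permutes these (`Pool.Agent.Y123.GN`).
-/

set_option autoImplicit false

open PowerSeries Matrix Filter

namespace Pool.Agent.Results.MP_5591bc_ag.HypergeometricWithConstants

/-- the power series `k + ε` in the variable `ε` -/
noncomputable def shift (k : ℕ) : PowerSeries ℚ := C (k : ℚ) + X

/-- `a_k(ε) = ∏_{l < k} ∏_j ((l + ε)^2 - β_j^2) / (l + 1 + ε)^(2m)`. The series `∑_k a_k(ε) z^(k + ε)` solves the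
equation `(θ^n - z ∏_j (θ^2 - β_j^2)) f = ε^n z^ε`, hence its coefficients `f_j` at `ε^j` with `j < n = 2m` are
solutions of the homogeneous equation. -/
noncomputable def frob {m : ℕ} (β : Fin m → ℚ) (k : ℕ) : PowerSeries ℚ :=
  ∏ l ∈ Finset.range k, ((∏ j, (shift l ^ 2 - C (β j ^ 2))) * ((shift (l + 1))⁻¹) ^ (2 * m))

/-- The matrix with the entries `(θ^i f_j)(1 / t)`, where `f_j(z)` is the coefficient of `ε^j` in the series
`∑_k a_k(ε) z^(k + ε)`, `z^ε = ∑_l (log z)^l ε^l / l!`. -/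
noncomputable def Y {m : ℕ} (β : Fin m → ℚ) (t : ℕ) : Matrix (Fin (2 * m)) (Fin (2 * m)) ℂ :=
  Matrix.of fun i j => ∑ l ∈ Finset.range ((j : ℕ) + 1), ((Real.log (1 / t) ^ l / l.factorial : ℝ) : ℂ) *
    ∑' k : ℕ, ((coeff ((j : ℕ) - l) (shift k ^ (i : ℕ) * frob β k) : ℚ) : ℂ) * (1 / (t : ℂ)) ^ k

/-- the polynomial `∏_j (x^2 - β_j^2)` -/
noncomputable def poly {m : ℕ} (β : Fin m → ℚ) : Polynomial ℚ := ∏ j, (Polynomial.X ^ 2 - Polynomial.C (β j ^ 2))

/-- The matrix of the intersection form: the entry `(i, j)` is `(-1)^i q_{i+j+1-n}` for `i + j + 1 ≥ n` and `0`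
otherwise, where `q_l` are the coefficients of `∏_j (x^2 - β_j^2)`. -/
noncomputable def J {m : ℕ} (β : Fin m → ℚ) : Matrix (Fin (2 * m)) (Fin (2 * m)) ℂ :=
  Matrix.of fun i j => if 2 * m ≤ (i : ℕ) + j + 1 then (((-1) ^ (i : ℕ) * (poly β).coeff (i + j + 1 - 2 * m) : ℚ) : ℂ) else 0

/-- the form on the Betti side -/
noncomputable def pairing {m : ℕ} (β : Fin m → ℚ) (Ω : Matrix (Fin (2 * m)) (Fin (2 * m)) ℂ) :
    Matrix (Fin (2 * m)) (Fin (2 * m)) ℂ := Ωᵀ * J β * Ω

/-- the number `2πi` -/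
noncomputable def twoPiI : ℂ := 2 * Real.pi * Complex.I

/-- the entries of the matrices `X_i` and the constants `ξ_j` -/
def entries {k r : ℕ} {m : Fin k → ℕ} (X : ∀ i, Matrix (Fin (2 * m i)) (Fin (2 * m i)) ℂ) (ξ : Fin r → ℂ) :
    (Σ i, Fin (2 * m i) × Fin (2 * m i)) ⊕ Fin r → ℂ :=
  Sum.elim (fun v => X v.1 v.2.1 v.2.2) ξ

/-- the period matrices of the fibres over `z_i = 1 / s_i` -/
noncomputable def periods {k : ℕ} {m : Fin k → ℕ} (β : ∀ i, Fin (m i) → ℚ)
    (Ω : ∀ i, Matrix (Fin (2 * m i)) (Fin (2 * m i)) ℂ) (s : Fin k → ℕ) (i : Fin k) :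
    Matrix (Fin (2 * m i)) (Fin (2 * m i)) ℂ := (Y (β i) (s i) * Ω i)ᵀ

/-- 1: coefficients in the `ℚ`-vector space `V`, for the fibres over `1 / s_i` -/
def GoodV (δ : ℕ) (V : Submodule ℚ ℂ) {k : ℕ} {m : Fin k → ℕ} (β : ∀ i, Fin (m i) → ℚ)
    (Ω : ∀ i, Matrix (Fin (2 * m i)) (Fin (2 * m i)) ℂ) (s : Fin k → ℕ) : Prop :=
  ∀ F : MvPolynomial (Σ i, Fin (2 * m i) × Fin (2 * m i)) ℂ, F.totalDegree ≤ δ → (∀ e, F.coeff e ∈ V) →
    MvPolynomial.aeval (fun v : Σ i, Fin (2 * m i) × Fin (2 * m i) => periods β Ω s v.1 v.2.1 v.2.2) F = 0 →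
    ∀ X : ∀ i, Matrix (Fin (2 * m i)) (Fin (2 * m i)) ℂ, (∀ i, X i * J (β i) * (X i)ᵀ = pairing (β i) (Ω i)) →
      MvPolynomial.aeval (fun v : Σ i, Fin (2 * m i) × Fin (2 * m i) => X v.1 v.2.1 v.2.2) F = 0

/-- 2: the constants `ξ` and all number fields of degree at most `D` at once, for the fibres over `1 / s_i` -/
def GoodK (D δ : ℕ) {k r : ℕ} (ξ : Fin r → ℂ) {m : Fin k → ℕ} (β : ∀ i, Fin (m i) → ℚ)
    (Ω : ∀ i, Matrix (Fin (2 * m i)) (Fin (2 * m i)) ℂ) (s : Fin k → ℕ) : Prop :=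
  ∀ K : Subfield ℂ, FiniteDimensional ℚ K → Module.finrank ℚ K ≤ D →
  ∀ F : MvPolynomial ((Σ i, Fin (2 * m i) × Fin (2 * m i)) ⊕ Fin r) K, F.totalDegree ≤ δ →
    MvPolynomial.aeval (entries (periods β Ω s) ξ) F = 0 →
    ∀ X : ∀ i, Matrix (Fin (2 * m i)) (Fin (2 * m i)) ℂ, (∀ i, X i * J (β i) * (X i)ᵀ = pairing (β i) (Ω i)) →
      MvPolynomial.aeval (entries X ξ) F = 0

theorem shift_eq (k : ℕ) : shift k = Pool.Agent.Y119.HY.kx k := rfl

theorem frob_eq {m : ℕ} (β : Fin m → ℚ) (k : ℕ) : frob β k = Pool.Agent.Y119.HY.aq (2 * m) (Pool.Agent.Y119.HY.QB β) k := by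
  unfold frob Pool.Agent.Y119.HY.aq
  refine Finset.prod_congr rfl fun l _ => ?_
  congr 1
  unfold Pool.Agent.Y119.HY.QB
  rw [map_prod]
  refine Finset.prod_congr rfl fun j _ => ?_
  simp only [map_sub, map_pow, Polynomial.aeval_X, Polynomial.aeval_C]
  rfl

theorem J_eq {m : ℕ} (β : Fin m → ℚ) :
    J β = Pool.Agent.Y119.HY.cm (Pool.Agent.Y119.HY.Jm (2 * m) (Pool.Agent.Y119.HY.QB β)) := by
  ext i j
  rw [Pool.Agent.Y119.HY.cm_apply]
  unfold J Pool.Agent.Y119.HY.Jm
  rw [Matrix.of_apply, Matrix.of_apply]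
  split_ifs
  · rfl
  · simp

theorem Y_eq {m : ℕ} (β : Fin m → ℚ) (t : ℕ) :
    Y β t = Pool.Agent.Y119.HZ.Yt (2 * m) (Pool.Agent.Y119.HY.QB β) t := by
  ext i j
  unfold Y Pool.Agent.Y119.HZ.Yt
  rw [Matrix.of_apply, Matrix.mul_apply]
  have hE : ∀ c : Fin (2 * m), Pool.Agent.Y119.HY.E (Pool.Agent.Y119.HY.cm (Pool.Agent.Y119.HY.Am (2 * m)))
      (-((Real.log t : ℝ) : ℂ)) c j = ∑ l ∈ Finset.range (2 * m),
        if (j : ℕ) = c + l then ((Real.log (1 / t) ^ l / l.factorial : ℝ) : ℂ) else 0 := by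
    intro c
    unfold Pool.Agent.Y119.HY.E
    rw [Matrix.sum_apply]
    refine Finset.sum_congr rfl fun l _ => ?_
    rw [Matrix.smul_apply, ← Pool.Agent.Y119.HY.cm_pow, Pool.Agent.Y119.HY.cm_apply, Pool.Agent.Y119.HY.Am_pow, smul_eq_mul,
      one_div, Real.log_inv]
    split_ifs
    · push_cast
      ring
    · simp
  simp only [hE, Finset.mul_sum]
  rw [Finset.sum_comm]
  have hsub : Finset.range ((j : ℕ) + 1) ⊆ Finset.range (2 * m) := by
    intro l hl
    rw [Finset.mem_range] at hl ⊢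
    have := j.2
    omega
  refine Finset.sum_subset_zero_on_sdiff hsub (fun l hl => ?_) fun l hl => ?_
  · rw [Finset.mem_sdiff, Finset.mem_range, Finset.mem_range] at hl
    refine Finset.sum_eq_zero fun c _ => ?_
    rw [if_neg (by omega), mul_zero]
  · rw [Finset.mem_range] at hl
    have hj := j.2
    rw [Finset.sum_eq_single (⟨(j : ℕ) - l, by omega⟩ : Fin (2 * m))]
    · rw [if_pos (by simp only; omega), mul_comm]
      congr 1
      unfold Pool.Agent.Y119.HY.Hf Pool.Agent.Y119.HY.ps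
      rw [Matrix.of_apply]
      refine tsum_congr fun k => ?_
      show _ = ((Pool.Agent.Y119.HY.hq (2 * m) (Pool.Agent.Y119.HY.QB β) k i ((j : ℕ) - l) : ℚ) : ℂ) *
        (((1 / (t : ℝ) : ℝ)) : ℂ) ^ k
      rw [frob_eq, shift_eq]
      unfold Pool.Agent.Y119.HY.hq
      push_cast
      rfl
    · intro c _ hc
      rw [if_neg, mul_zero]
      intro h
      apply hc
      apply Fin.ext
      simp only
      omega
    · intro h
      exact absurd (Finset.mem_univ _) h

/-- the first conclusion -/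
theorem goodV_of {k : ℕ} {m : Fin k → ℕ} {β : ∀ i, Fin (m i) → ℚ} {δ : ℕ} {V : Submodule ℚ ℂ}
    {Ω : ∀ i, Matrix (Fin (2 * m i)) (Fin (2 * m i)) ℂ} {s : Fin k → ℕ}
    (hgood : Pool.Agent.X120.GS.GoodZ (n := fun i => 2 * m i) δ V
      (fun i => (Pool.Agent.Y119.HZ.Yt (2 * m i) (Pool.Agent.Y119.HY.QB (β i)) (s i) * Ω i)ᵀ)
      (fun i => Pool.Agent.Y119.HY.cm (Pool.Agent.Y119.HY.Jm (2 * m i) (Pool.Agent.Y119.HY.QB (β i))))
      (fun i => (Ω i)ᵀ * Pool.Agent.Y119.HY.cm (Pool.Agent.Y119.HY.Jm (2 * m i) (Pool.Agent.Y119.HY.QB (β i))) * Ω i)) :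
    GoodV δ V β Ω s := by
  intro F hF hV h0 X hX
  refine hgood F hF hV ?_ X fun i => ?_
  · have hW : periods β Ω s = fun i => (Pool.Agent.Y119.HZ.Yt (2 * m i) (Pool.Agent.Y119.HY.QB (β i)) (s i) * Ω i)ᵀ := by
      funext i
      unfold periods
      rw [Y_eq]
    rw [hW] at h0
    exact h0
  · have h1 := hX i
    unfold pairing at h1
    rw [J_eq] at h1
    exact h1

/-- the second conclusion -/
theorem goodK_of {k : ℕ} {m : Fin k → ℕ} (hm : ∀ i, 1 ≤ m i) {β : ∀ i, Fin (m i) → ℚ}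
    (hβ : ∀ i, ∀ j, ∀ l : ℕ, (l : ℚ) + β i j ≠ 0 ∧ (l : ℚ) + -β i j ≠ 0) {D δ r : ℕ} {ξ : Fin r → ℂ}
    {Ω : ∀ i, Matrix (Fin (2 * m i)) (Fin (2 * m i)) ℂ}
    (hΩ : ∀ i, IsUnit (Ω i)) {s : Fin k → ℕ} (hs : ∀ i, 2 ≤ s i)
    (hgood : Pool.Agent.X120.GS.GoodY (n := fun i => 2 * m i) D δ (Matrix.diagonal ξ)
      (fun i => (Pool.Agent.Y119.HZ.Yt (2 * m i) (Pool.Agent.Y119.HY.QB (β i)) (s i) * Ω i)ᵀ)
      (fun i => (Ω i)ᵀ * Pool.Agent.Y119.HY.cm (Pool.Agent.Y119.HY.Jm (2 * m i) (Pool.Agent.Y119.HY.QB (β i))) * Ω i)) :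
    GoodK D δ ξ β Ω s := by
  classical
  intro K hKf hKD F hF h0 X hX
  have hQ := fun i => Pool.Agent.Y119.HZ.QD_QB (hm i) (hβ i)
  have hW : periods β Ω s = fun i => (Pool.Agent.Y119.HZ.Yt (2 * m i) (Pool.Agent.Y119.HY.QB (β i)) (s i) * Ω i)ᵀ := by
    funext i
    unfold periods
    rw [Y_eq]
  have hform : ∀ i, periods β Ω s i * J (β i) * (periods β Ω s i)ᵀ = (1 : ℂ) • pairing (β i) (Ω i) := by
    intro i
    have h6 := Pool.Agent.Y123.GN.cM_form (n := fun i => 2 * m i) hQ Ω hs i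
    unfold pairing
    rw [J_eq, hW, one_smul]
    exact h6
  have hsp : ∀ i, Pool.Agent.Y123.GN.Spf (pairing (β i) (Ω i)) := by
    intro i
    unfold pairing
    rw [J_eq]
    exact ⟨(Matrix.isUnit_iff_isUnit_det _).2 (isUnit_iff_ne_zero.2 (Pool.Agent.Y123.GN.PM'_det (n := fun i => 2 * m i) hQ hΩ i)),
      Pool.Agent.Y123.GN.PM'_skew (n := fun i => 2 * m i) hQ Ω i⟩
  have hu : ∀ i, IsUnit (periods β Ω s i) := by
    intro i
    rw [hW]
    exact Pool.Agent.Y123.GN.cM_unit (n := fun i => 2 * m i) hQ hΩ hs i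
  have hst : ∀ g : ∀ i, (Matrix (Fin (2 * m i)) (Fin (2 * m i)) ℂ)ˣ, (∀ i, g i ∈ Pool.Agent.Y123.GN.GB (pairing (β i) (Ω i))) →
      Pool.Agent.Y123.GN.Rl K δ (Pool.Agent.Y123.GN.EG (n := fun i => 2 * m i) (Matrix.diagonal ξ) (periods β Ω s))
        (Pool.Agent.Y123.GN.EG (n := fun i => 2 * m i) 1 (fun i => (g i : Matrix (Fin (2 * m i)) (Fin (2 * m i)) ℂ)) *
          Pool.Agent.Y123.GN.EG (n := fun i => 2 * m i) (Matrix.diagonal ξ) (periods β Ω s)) := by
    intro g hg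
    rw [hW]
    refine hgood K hKf hKD g fun i => ?_
    have h1 := hg i
    unfold pairing at h1
    rw [J_eq] at h1
    exact h1
  exact Pool.Agent.X120.GS.rel_forms (n := fun i => 2 * m i) (μ := fun _ => 1) hst (fun _ => one_ne_zero) hu hform
    (fun i => by rw [hX i, one_smul]) (fun i => Or.inl (hsp i)) hF h0

/-- **The theorem.** -/
theorem result (k : ℕ) (m : Fin k → ℕ) (hm : ∀ i, 1 ≤ m i) (β : ∀ i, Fin (m i) → ℚ)
    (hβ : ∀ i j, ∀ a : ℤ, β i j ≠ a) (b : Fin k → ℕ) (hb : ∀ i, 2 ≤ b i) :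
    -- 1 and 2 for given bounds
    (∀ D δ r : ℕ, ∃ C : ℝ, 0 ≤ C ∧
      ∀ Ω : (∀ i, Matrix (Fin (2 * m i)) (Fin (2 * m i)) ℂ), (∀ i, IsUnit (Ω i)) →
      ∀ V : Submodule ℚ ℂ, FiniteDimensional ℚ V → Module.finrank ℚ V ≤ D → ∀ ξ : Fin r → ℂ, ∀ N : ℕ, 2 ≤ N →
      (({t : Fin k → ℕ | (∀ i, 1 ≤ t i ∧ t i ≤ N) ∧
        ¬ (GoodV δ V β Ω (fun i => b i ^ t i) ∧ GoodK D δ ξ β Ω fun i => b i ^ t i)}.ncard : ℕ) : ℝ) * N ≤
        C * (N : ℝ) ^ k * Real.log N) ∧
    -- all bounds at most `M N`, which tends to infinity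
    (∃ (M : ℕ → ℕ) (ε : ℕ → ℝ), Tendsto M atTop atTop ∧ Tendsto ε atTop (nhds 0) ∧
      ∀ N : ℕ, 2 ≤ N → ∀ Ω : (∀ i, Matrix (Fin (2 * m i)) (Fin (2 * m i)) ℂ), (∀ i, IsUnit (Ω i)) →
      ∀ V : Submodule ℚ ℂ, FiniteDimensional ℚ V → Module.finrank ℚ V ≤ M N → ∀ ξ : Fin (M N) → ℂ,
      (({t : Fin k → ℕ | (∀ i, 1 ≤ t i ∧ t i ≤ N) ∧
        ¬ (GoodV (M N) V β Ω (fun i => b i ^ t i) ∧ GoodK (M N) (M N) ξ β Ω fun i => b i ^ t i)}.ncard : ℕ) : ℝ) ≤
        ε N * (N : ℝ) ^ k) := by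
  classical
  have hβ' : ∀ i, ∀ j, ∀ l : ℕ, (l : ℚ) + β i j ≠ 0 ∧ (l : ℚ) + -β i j ≠ 0 := by
    intro i j l
    constructor
    · intro h
      apply hβ i j (-(l : ℤ))
      push_cast
      linear_combination h
    · intro h
      apply hβ i j (l : ℤ)
      push_cast
      linear_combination -h
  have hQ := fun i => Pool.Agent.Y119.HZ.QD_QB (hm i) (hβ' i)
  have hmain : ∀ D δ r : ℕ, ∃ C : ℝ, 0 ≤ C ∧
      ∀ Ω : (∀ i, Matrix (Fin (2 * m i)) (Fin (2 * m i)) ℂ), (∀ i, IsUnit (Ω i)) →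
      ∀ V : Submodule ℚ ℂ, FiniteDimensional ℚ V → Module.finrank ℚ V ≤ D → ∀ ξ : Fin r → ℂ, ∀ N : ℕ, 2 ≤ N →
      (({t : Fin k → ℕ | (∀ i, 1 ≤ t i ∧ t i ≤ N) ∧
        ¬ (GoodV δ V β Ω (fun i => b i ^ t i) ∧ GoodK D δ ξ β Ω fun i => b i ^ t i)}.ncard : ℕ) : ℝ) * N ≤
        C * (N : ℝ) ^ k * Real.log N := by
    intro D δ r
    obtain ⟨C, hC, hcount⟩ := Pool.Agent.X120.GS.hyp_relS (Fin r) k D δ (fun i => 2 * m i)
      (fun i => Pool.Agent.Y119.HY.QB (β i)) hQ (fun i μ hμ => by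
        exact Pool.Agent.X120.GS.QB_rat (β i) hμ) (fun i a b => Pool.Agent.Y119.HY.sdc_hps (hβ' i) (hQ i) a b) hb
    obtain ⟨C', hC', hcount'⟩ := Pool.Agent.X120.GS.hyp_relV k D δ (fun i => 2 * m i)
      (fun i => Pool.Agent.Y119.HY.QB (β i)) hQ (fun i μ hμ => by
        exact Pool.Agent.X120.GS.QB_rat (β i) hμ) (fun i a b => Pool.Agent.Y119.HY.sdc_hps (hβ' i) (hQ i) a b) hb
    refine ⟨C' + C, by positivity, ?_⟩
    intro Ω hΩ V hVf hV ξ N hN
    set S := {t : Fin k → ℕ | (∀ i, 1 ≤ t i ∧ t i ≤ N) ∧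
        ¬ (GoodV δ V β Ω (fun i => b i ^ t i) ∧ GoodK D δ ξ β Ω fun i => b i ^ t i)} with hS
    have hfin : S.Finite := by
      refine (Set.finite_Iic (fun _ : Fin k => N)).subset ?_
      intro t ht i
      exact (ht.1 i).2
    rw [Set.ncard_eq_toFinset_card S hfin]
    have h1 := hcount' Ω hΩ V hV N hN (hfin.toFinset.filter fun t => ¬ GoodV δ V β Ω fun i => b i ^ t i) fun t ht => by
      rw [Finset.mem_filter] at ht
      have ht' := hfin.mem_toFinset.1 ht.1
      exact ⟨ht'.1, fun hgood => ht.2 (goodV_of hgood)⟩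
    have h2 := hcount Ω hΩ (Matrix.diagonal ξ) N hN
      (hfin.toFinset.filter fun t => ¬ ¬ GoodV δ V β Ω fun i => b i ^ t i) fun t ht => by
      rw [Finset.mem_filter] at ht
      have ht' := hfin.mem_toFinset.1 ht.1
      have hs : ∀ i, 2 ≤ b i ^ t i := fun i => (hb i).trans (Nat.le_self_pow (by have := (ht'.1 i).1; omega) _)
      exact ⟨ht'.1, fun hgood => ht'.2 ⟨not_not.1 ht.2, goodK_of hm hβ' hΩ hs hgood⟩⟩
    have h3 := Finset.card_filter_add_card_filter_not (s := hfin.toFinset) (fun t => ¬ GoodV δ V β Ω fun i => b i ^ t i)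
    have h4 : (hfin.toFinset.card : ℝ) = ((hfin.toFinset.filter fun t => ¬ GoodV δ V β Ω fun i => b i ^ t i).card : ℝ) +
        ((hfin.toFinset.filter fun t => ¬ ¬ GoodV δ V β Ω fun i => b i ^ t i).card : ℝ) := by
      exact_mod_cast h3.symm
    rw [h4]
    nlinarith [h1, h2]
  refine ⟨hmain, ?_⟩
  choose C hC hcount using hmain
  obtain ⟨D, hD, hδ⟩ := Pool.Agent.Y123.GN.diag_seq (fun D N => C D D D * (Real.log N / N)) (by
      intro D
      have h1 : Tendsto (fun N : ℕ => Real.log N / N) atTop (nhds 0) :=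
        (Real.isLittleO_log_id_atTop.tendsto_div_nhds_zero).comp tendsto_natCast_atTop_atTop
      have h5 := h1.const_mul (C D D D)
      rw [mul_zero] at h5
      exact h5)
  refine ⟨D, _, hD, hδ, ?_⟩
  intro N hN Ω hΩ V hVf hV ξ
  have h1 := hcount (D N) (D N) (D N) Ω hΩ V hVf hV ξ N hN
  have hN0 : (0 : ℝ) < N := by
    have : 0 < N := by omega
    exact_mod_cast this
  rw [← le_div_iff₀ hN0] at h1
  refine h1.trans (le_of_eq ?_)
  ring

end Pool.Agent.Results.MP_5591bc_ag.HypergeometricWithConstants
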