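import Pool.Agent.Results.MP_5591bc_ag.EllipticFamilies
import Pool.Agent.X174.MasterTup

/-!
# Periods of ALL fibres of products of `n` families of elliptic curves at simultaneous approximations of `n` numbers

Let `a_j`, `b_j` be polynomials (`j = 1, …, n`) such that `a_j³ / b_j²` is not constant, and consider the families of elliptic
curves `y² = x³ + a_j(s) x + b_j(s)` and their product over the `n`-dimensional space of the `(s_1, …, s_n)`. For every `ω > 0`
there is ONE set `E ⊂ ℂ^n` of Hausdorff dimension at most `2 m (n - 1) / ω` such that for all `x ∈ ℂ^n` outside `E` (no `x_j` a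
zero of a discriminant), all number fields `F ⊂ ℂ` of degree at most `m` (for instance `ℚ`), all `d` and `A` there are `B` and
`T₁` such that for all `T ≥ T₁` and ALL simultaneous approximations `t ∈ F^n` of `x`, of height at most `T`, with
`|t_j - x_j| ≤ T ^ (-ω)` for all `j`, the `3 n` periods of the fibre over `t` (for each factor two periods of `dx / y` and one
of `x dx / y`) satisfy no relation of degree at most `d` with coefficients `∑ ξ_i c_i`,
where the `c_i` are integers of `F` of height at most `T ^ A` and the `ξ_i` are given complex numbers, not even up to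
`T ^ (-B)`. For `ω > 2 m (n - 1) / n` almost all `x ∈ ℝ^n` are outside `E`; for `F = ℚ` and `2 - 2 / n < ω < 2` almost all `x`
have approximations of this quality at every large level `T`. Exceptions for `n ≥ 2` are unavoidable: isogenous factors.

The number of exceptional tuples in fixed fields is from the starting result `EllipticFamilies`; the passage to the
approximations is `Pool.Agent.X174.NearTup`.
-/

set_option autoImplicit false

open MeasureTheory NumberField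

namespace Pool.Agent.Results.MP_5591bc_ag.SimultaneousApproximations

open Pool.Agent.X39.Near (Size)
open EllipticFamilies (periods)

/-- There are numberings of the roots `e_{j0}, e_{j1}, e_{j2}` of `x³ + a_j(t_j) x + b_j(t_j)` with
`(e_{j2} - e_{j0}) / (e_{j1} - e_{j0}) ∈ L`, square roots `v_j` of `e_{j1} - e_{j0}`, and a polynomial `P` of degree at most `d`
in each of `3 n` variables, with coefficients of the form `∑ ξ_i ι(c_i)`, where the `c_i` are integers of `F` all of whose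
conjugates have absolute value at most `T ^ A`, such that the value of `P` at the `3 n` periods is at most `T ^ (-B)` times the
absolute value of some nonzero coefficient of `P`. -/
def Related {n g : ℕ} (a b : Fin n → Polynomial ℂ) (L : Set ℂ) (ξ : Fin g → ℂ) (F : Type) [Field F] [NumberField F]
    (ι : F →+* ℂ) (d : ℕ) (A B T : ℝ) (t : Fin n → F) : Prop :=
  ∃ (e : Fin n → Fin 3 → ℂ) (v : Fin n → ℂ),
    (∀ j, (∀ x : ℂ, x ^ 3 + (a j).eval (ι (t j)) * x + (b j).eval (ι (t j)) = (x - e j 0) * (x - e j 1) * (x - e j 2)) ∧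
      v j ^ 2 = e j 1 - e j 0 ∧ (e j 2 - e j 0) / (e j 1 - e j 0) ∈ L) ∧
    ∃ P : MvPolynomial (Fin n × Fin 3) ℂ, (∀ x, P.degreeOf x ≤ d) ∧
    (∀ s, ∃ c : Fin g → 𝓞 F, (∀ i (φ : F →+* ℂ), ‖φ (c i)‖ ≤ T ^ A) ∧ P.coeff s = ∑ i, ξ i * ι (c i)) ∧
    ∃ s₀, P.coeff s₀ ≠ 0 ∧
      ‖MvPolynomial.aeval (fun x : Fin n × Fin 3 => periods (e x.1) (v x.1) x.2) P‖ ≤ T ^ (-B) * ‖P.coeff s₀‖

/-- no discriminant vanishes -/
def Ω {n : ℕ} (a b : Fin n → Polynomial ℂ) : Set ℂ := {s | ∀ j, 4 * (a j).eval s ^ 3 + 27 * (b j).eval s ^ 2 ≠ 0}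

theorem open_Ω {n : ℕ} (a b : Fin n → Polynomial ℂ) : IsOpen (Ω a b) := by
  have h1 : Ω a b = ⋂ j, {s | 4 * (a j).eval s ^ 3 + 27 * (b j).eval s ^ 2 ≠ 0} := by
    ext s
    simp [Ω]
  rw [h1]
  refine isOpen_iInter_of_finite fun j => isOpen_ne_fun ?_ continuous_const
  exact (((a j).continuous.pow 3).const_mul 4 |>.add (((b j).continuous.pow 2).const_mul 27) : Continuous _)

/-- the complement of `(-∞, 0] ∪ [1, ∞)` -/
def U₀ : Set ℂ := {l | l ∈ Complex.slitPlane ∧ 1 - l ∈ Complex.slitPlane}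

theorem open_U₀ : IsOpen U₀ :=
  Complex.isOpen_slitPlane.inter (Complex.isOpen_slitPlane.preimage (continuous_const.sub continuous_id))

/-- compact subsets of `U₀` which exhaust it -/
def LK (k : ℕ) : Set ℂ := {l | ‖l‖ ≤ k ∧ 1 / ((k : ℝ) + 1) ≤ Metric.infDist l U₀ᶜ}

theorem ne_U₀ : (U₀ᶜ : Set ℂ).Nonempty := ⟨0, fun h => by
  have h1 := h.1
  rw [Complex.mem_slitPlane_iff] at h1
  simp at h1⟩

theorem compact_LK (k : ℕ) : IsCompact (LK k) := by
  refine (isCompact_closedBall (0 : ℂ) k).of_isClosed_subset ?_ fun l hl => ?_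
  · exact (isClosed_le continuous_norm continuous_const).inter
      (isClosed_le continuous_const (Metric.continuous_infDist_pt _))
  · rw [mem_closedBall_zero_iff]
    exact hl.1

theorem sub_LK (k : ℕ) : LK k ⊆ U₀ := by
  intro l hl
  by_contra h
  have h1 : Metric.infDist l U₀ᶜ = 0 := Metric.infDist_zero_of_mem h
  have h2 := hl.2
  rw [h1] at h2
  have : (0 : ℝ) < 1 / ((k : ℝ) + 1) := by positivity
  linarith

theorem exists_LK {L : Set ℂ} (hL : IsCompact L) (hLU : L ⊆ U₀) : ∃ k, L ⊆ LK k := by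
  rcases L.eq_empty_or_nonempty with rfl | hne
  · exact ⟨0, Set.empty_subset _⟩
  obtain ⟨R, hR⟩ := hL.isBounded.exists_norm_le
  obtain ⟨l₀, hl₀, hmin⟩ := hL.exists_isMinOn hne (Metric.continuous_infDist_pt (U₀ᶜ : Set ℂ)).continuousOn
  have hpos : 0 < Metric.infDist l₀ U₀ᶜ := by
    refine (open_U₀.isClosed_compl.notMem_iff_infDist_pos ne_U₀).1 ?_
    exact fun h => h (hLU hl₀)
  obtain ⟨k1, hk1⟩ := exists_nat_ge R
  obtain ⟨k2, hk2⟩ := exists_nat_one_div_lt hpos
  refine ⟨max k1 k2, fun l hl => ⟨?_, ?_⟩⟩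
  · refine (hR l hl).trans (hk1.trans ?_)
    exact_mod_cast le_max_left k1 k2
  · refine le_trans ?_ (hk2.le.trans (isMinOn_iff.1 hmin l hl))
    apply one_div_le_one_div_of_le (by positivity)
    have : (k2 : ℝ) ≤ ((max k1 k2 : ℕ) : ℝ) := by exact_mod_cast le_max_right k1 k2
    linarith

/-- **Theorem.** Let `n ≥ 1`, `m` be natural numbers, `a_j`, `b_j`, `j < n`, complex polynomials with `b_j ≠ 0` and `a_j³` not a
constant multiple of `b_j²`, `ξ_1, …, ξ_g` complex numbers and `ω > 0`. There is a set `E ⊂ ℂ^n` of Hausdorff dimension at most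
`2 m (n - 1) / ω`, which contains almost no real point if `2 m (n - 1) < n ω`, such that for all `x` outside `E` whose
coordinates are not zeros of the `4 a_i³ + 27 b_i²`, all compact `L ⊂ ℂ ∖ ((-∞, 0] ∪ [1, ∞))`, all number fields `F` of degree
at most `m` with an embedding `ι` in `ℂ` and all `d`, `A` there are `B`, `T₁` such that for all `T ≥ T₁` and all `t ∈ F^n`,
quotients of integers with conjugates at most `T`, with `|ι t_j - x_j| ≤ T ^ (-ω)` for all `j`, the periods at `t` are not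
`Related`. -/
theorem result {n g : ℕ} (hn : 1 ≤ n) (m : ℕ) (a b : Fin n → Polynomial ℂ) (hb : ∀ j, b j ≠ 0)
    (hab : ∀ j, ∀ c : ℂ, a j ^ 3 ≠ Polynomial.C c * b j ^ 2) (ξ : Fin g → ℂ) (ω : ℝ) (hω : 0 < ω) :
    ∃ E : Set (Fin n → ℂ), dimH E ≤ ENNReal.ofReal (2 * m * ((n : ℝ) - 1) / ω) ∧
      (2 * m * ((n : ℝ) - 1) < n * ω → ∀ᵐ x : Fin n → ℝ, (fun j => (x j : ℂ)) ∉ E) ∧
      ∀ x : Fin n → ℂ, (∀ j, x j ∈ Ω a b) → x ∉ E → ∀ L : Set ℂ, IsCompact L → L ⊆ U₀ →
        ∀ (F : Type) [Field F] [NumberField F], Module.finrank ℚ F ≤ m → ∀ (ι : F →+* ℂ) (d A : ℕ),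
          ∃ B T₁ : ℝ, ∀ T : ℝ, T₁ ≤ T → ∀ t : Fin n → F, (∀ j, Size F T (t j)) →
            (∀ j, ‖ι (t j) - x j‖ ≤ T ^ (-ω)) → ¬ Related a b L ξ F ι d A B T t := by
  classical
  have hn1 : (1 : ℝ) ≤ n := by exact_mod_cast hn
  have key : ∀ k : ℕ, ∃ E : Set (Fin n → ℂ), dimH E ≤ ENNReal.ofReal (2 * m * ((n : ℝ) - 1) / ω) ∧
      ∀ x : Fin n → ℂ, (∀ j, x j ∈ Ω a b) → x ∉ E → ∀ (F : Type) [Field F] [NumberField F],
        Module.finrank ℚ F ≤ m → ∀ (ι : F →+* ℂ) (d A : ℕ), ∃ B T₁ : ℝ, ∀ T : ℝ, T₁ ≤ T → ∀ t : Fin n → F,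
          (∀ j, Size F T (t j)) → (∀ j, ‖ι (t j) - x j‖ ≤ T ^ (-ω)) → ¬ Related a b (LK k) ξ F ι d A B T t := by
    intro k
    refine Pool.Agent.X174.NearTup.tuples n m hn (fun _ => Ω a b) (fun _ => open_Ω a b)
      (fun F _ _ => Related a b (LK k) ξ F) ?_ ?_ ?_ hω
    · rintro F F' _ _ _ _ ι ι' e he d A B T t ⟨e₁, v, h1, P, h2, h3, h4⟩
      refine ⟨e₁, v, fun j => by rw [he]; exact h1 j, P, h2, fun s => ?_, h4⟩
      obtain ⟨c, hc1, hc2⟩ := h3 s
      refine ⟨fun i => RingOfIntegers.mapRingEquiv e (c i), fun i φ => hc1 i (φ.comp (e : F →+* F')), ?_⟩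
      rw [hc2]
      refine Finset.sum_congr rfl fun i _ => ?_
      congr 1
      exact (he (c i)).symm
    · rintro F _ _ ι d A B B' T T' t hA hT1 hT2 hT3 hB ⟨e₁, v, h1, P, h2, h3, s₀, h4, h5⟩
      obtain ⟨h6, h7⟩ := Pool.Agent.X39.Near.rpow_levels hA hT1 hT2 hT3 hB
      refine ⟨e₁, v, h1, P, h2, fun s => ?_, s₀, h4, h5.trans (mul_le_mul_of_nonneg_right h7 (norm_nonneg _))⟩
      obtain ⟨c, hc1, hc2⟩ := h3 s
      exact ⟨c, fun i φ => (hc1 i φ).trans h6, hc2⟩
    · intro K hK hKΩ d A ε hA hε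
      have hS : IsCompact (⋃ j, K j) := isCompact_iUnion hK
      obtain ⟨B, C, T₀, h⟩ := EllipticFamilies.result m n g d a b hb hab (⋃ j, K j) hS
        (fun j s hs => by
          obtain ⟨i, hi⟩ := Set.mem_iUnion.1 hs
          exact hKΩ i hi j) (LK k) (compact_LK k) (fun l hl => sub_LK k hl) A ε hε
      refine ⟨B, |C|, max T₀ 1, fun F _ _ hF ι T hT => ?_⟩
      have hT0 : T₀ ≤ T := (le_max_left _ _).trans hT
      have hT1 : 1 ≤ T := (le_max_right _ _).trans hT
      obtain ⟨h1, h2⟩ := h F hF ι ξ T hT0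
      have hsub : {t : Fin n → F | (∀ j, ι (t j) ∈ K j ∧ Size F T (t j)) ∧ Related a b (LK k) ξ F ι d A B T t} ⊆
          EllipticFamilies.Exceptional a b d F ι ξ (⋃ j, K j) (LK k) A B T :=
        fun t ht => ⟨fun j => ⟨Set.mem_iUnion.2 ⟨j, (ht.1 j).1⟩, (ht.1 j).2⟩, ht.2⟩
      obtain ⟨c, -, hc⟩ := Pool.Agent.X174.NearTup.card_quot F
      have hfin : {x : F | Size F T x}.Finite := (hc T hT1).1
      have hsub' : EllipticFamilies.Points F ι (⋃ j, K j) T ⊆ {x : F | Size F T x} := fun x hx => hx.2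
      refine ⟨h1.subset hsub, ?_⟩
      have h3 : (({t : Fin n → F | (∀ j, ι (t j) ∈ K j ∧ Size F T (t j)) ∧
          Related a b (LK k) ξ F ι d A B T t}.ncard : ℕ) : ℝ) ≤
          ((EllipticFamilies.Exceptional a b d F ι ξ (⋃ j, K j) (LK k) A B T).ncard : ℝ) := by
        exact_mod_cast Set.ncard_le_ncard hsub h1
      have h4 : ((EllipticFamilies.Points F ι (⋃ j, K j) T).ncard : ℝ) ≤ (({x : F | Size F T x}.ncard : ℕ) : ℝ) := by
        exact_mod_cast Set.ncard_le_ncard hsub' hfin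
      calc _ ≤ C * T ^ ε * ((EllipticFamilies.Points F ι (⋃ j, K j) T).ncard : ℝ) ^ (n - 1) := h3.trans h2
        _ ≤ |C| * T ^ ε * ((EllipticFamilies.Points F ι (⋃ j, K j) T).ncard : ℝ) ^ (n - 1) :=
            mul_le_mul_of_nonneg_right (mul_le_mul_of_nonneg_right (le_abs_self C) (by positivity)) (by positivity)
        _ ≤ _ := mul_le_mul_of_nonneg_left (pow_le_pow_left₀ (Nat.cast_nonneg _) h4 _) (by positivity)
  choose E hE1 hE2 using key
  have hdim : dimH (⋃ k, E k) ≤ ENNReal.ofReal (2 * m * ((n : ℝ) - 1) / ω) := by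
    rw [dimH_iUnion]
    exact iSup_le hE1
  have h0 : (0 : ℝ) ≤ 2 * m * ((n : ℝ) - 1) / ω := by
    have : (0 : ℝ) ≤ (n : ℝ) - 1 := by linarith
    positivity
  refine ⟨⋃ k, E k, hdim, fun h3 => Pool.Agent.X174.NearTup.ae_real hdim h0 ((div_lt_iff₀ hω).2 h3), ?_⟩
  intro x hx hxE L hL hLU F _ _ hF ι d A
  obtain ⟨k, hk⟩ := exists_LK hL hLU
  obtain ⟨B, T₁, h⟩ := hE2 k x hx (fun hm => hxE (Set.mem_iUnion.2 ⟨k, hm⟩)) F hF ι d A
  refine ⟨B, T₁, fun T hT t ht1 ht2 hrel => h T hT t ht1 ht2 ?_⟩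
  obtain ⟨e₁, v, h1, h2⟩ := hrel
  exact ⟨e₁, v, fun j => ⟨(h1 j).1, (h1 j).2.1, hk (h1 j).2.2⟩, h2⟩

end Pool.Agent.Results.MP_5591bc_ag.SimultaneousApproximations
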